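import Mathlib.Probability.Moments.ComplexMGF
import Mathlib.Analysis.Complex.TaylorSeries

set_option autoImplicit false

/-! # Landau's lemma: convergence of Laplace transforms of positive measures -/

namespace Pool.Agent.K6.H7.PF

open MeasureTheory Set Filter Topology ProbabilityTheory

/-- **Landau's lemma.** If the Laplace transform `s ↦ ∫ exp (-s X)` of a nonnegative function `X` with
respect to a finite measure extends to a holomorphic function on the disc of radius `1 + lam` around
`1`, then it converges for `s > -lam`. -/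
theorem landau {E : Type} [MeasurableSpace E] (ν : Measure E) [IsFiniteMeasure ν] (X : E → ℝ)
    (hX : Measurable X) (hX0 : ∀ x, 0 ≤ X x) (H : ℂ → ℂ) (lam : ℝ) (hlam : 0 < lam)
    (hH : DifferentiableOn ℂ H (Metric.ball 1 (1 + lam)))
    (hF : ∀ s : ℝ, 0 < s → ((∫ x, Real.exp (-s * X x) ∂ν : ℝ) : ℂ) = H s) (t : ℝ) (ht : t < lam) :
    Integrable (fun x => Real.exp (t * X x)) ν := by
  rcases lt_or_ge t 0 with ht0 | ht0
  · refine (integrable_const (1 : ℝ)).mono' (by fun_prop) (Eventually.of_forall fun x => ?_)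
    rw [Real.norm_eq_abs, abs_of_pos (Real.exp_pos _)]
    exact Real.exp_le_one_iff.2 (mul_nonpos_of_nonpos_of_nonneg ht0.le (hX0 x))
  -- the moment generating function of `-X`
  set Y : E → ℝ := fun x => - X x with hY
  have hset : Ici (0 : ℝ) ⊆ integrableExpSet Y ν := by
    intro s hs
    have hs' : (0 : ℝ) ≤ s := hs
    show Integrable (fun x => Real.exp (s * Y x)) ν
    refine (integrable_const (1 : ℝ)).mono' (by fun_prop) (Eventually.of_forall fun x => ?_)
    rw [Real.norm_eq_abs, abs_of_pos (Real.exp_pos _)]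
    refine Real.exp_le_one_iff.2 ?_
    rw [hY]
    have := mul_nonneg hs' (hX0 x)
    simp only
    linarith
  have hint : ∀ s : ℝ, 0 < s → s ∈ interior (integrableExpSet Y ν) := by
    intro s hs
    apply interior_mono hset
    rw [interior_Ici]
    exact hs
  have h1 : ((1 : ℂ)).re ∈ interior (integrableExpSet Y ν) := hint _ (by norm_num)
  have hmgf : ∀ s : ℝ, 0 < s → complexMGF Y ν s = H s := by
    intro s hs
    rw [complexMGF_ofReal, ← hF s hs]
    unfold mgf
    congr 1
    refine integral_congr_ae (Eventually.of_forall fun x => ?_)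
    simp only [hY]
    ring_nf
  have hA : AnalyticAt ℂ (complexMGF Y ν) 1 := analyticAt_complexMGF h1
  have hB : AnalyticAt ℂ H 1 := by
    refine hH.analyticAt (Metric.isOpen_ball.mem_nhds ?_)
    exact Metric.mem_ball_self (by linarith)
  have hfreq : ∃ᶠ z in 𝓝[≠] (1 : ℂ), complexMGF Y ν z = H z := by
    have ht : Tendsto (fun x : ℝ => (x : ℂ)) (𝓝[>] (1 : ℝ)) (𝓝[≠] (1 : ℂ)) := by
      rw [tendsto_nhdsWithin_iff]
      constructor
      · have := (Complex.continuous_ofReal.tendsto (1 : ℝ)).mono_left
          (nhdsWithin_le_nhds (s := Ioi (1 : ℝ)))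
        simpa using this
      · filter_upwards [self_mem_nhdsWithin] with x hx
        have hx' : (1 : ℝ) < x := hx
        rw [mem_compl_iff, mem_singleton_iff]
        intro h3
        have := congrArg Complex.re h3
        simp at this
        linarith
    refine ht.frequently ?_
    apply Eventually.frequently
    filter_upwards [self_mem_nhdsWithin] with x hx
    have hx' : (1 : ℝ) < x := hx
    exact hmgf x (by linarith)
  have hev : complexMGF Y ν =ᶠ[𝓝 1] H := (hA.frequently_eq_iff_eventually_eq hB).1 hfreq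
  have hder : ∀ n, iteratedDeriv n H 1 = ∫ x, (Y x : ℂ) ^ n * Complex.exp ((1 : ℂ) * Y x) ∂ν := by
    intro n
    rw [← iteratedDeriv_complexMGF h1 n]
    exact (hev.iteratedDeriv_eq n).symm
  -- the terms of the Taylor series
  set F : ℕ → E → ℝ := fun n x => ((1 + t) * X x) ^ n / n.factorial * Real.exp (- X x) with hFdef
  have hFi : ∀ n, Integrable (F n) ν := by
    intro n
    have h2 := integrable_pow_mul_exp_of_mem_interior_integrableExpSet (hint 1 one_pos) n
    have h3 := h2.const_mul ((-(1 + t)) ^ n / n.factorial)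
    refine h3.congr (Eventually.of_forall fun x => ?_)
    simp only [hFdef, hY]
    rw [one_mul, show (1 + t) * X x = (-(1 + t)) * (- X x) by ring, mul_pow]
    ring
  have hF0 : ∀ n x, 0 ≤ F n x := by
    intro n x
    have := hX0 x
    simp only [hFdef]
    positivity
  have hsum : Summable fun n => ∫ x, F n x ∂ν := by
    have hz : (-t : ℂ) ∈ Metric.ball (1 : ℂ) (1 + lam) := by
      rw [Metric.mem_ball, Complex.dist_eq]
      have h3 : (-t - 1 : ℂ) = ((-(1 + t) : ℝ) : ℂ) := by push_cast; ring
      rw [h3, Complex.norm_real, Real.norm_eq_abs, abs_neg, abs_of_nonneg (by linarith)]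
      linarith
    have h4 := (Complex.hasSum_taylorSeries_on_ball hH hz).summable
    have h5 : (fun n : ℕ => ((n.factorial : ℂ))⁻¹ • ((-t : ℂ) - 1) ^ n • iteratedDeriv n H 1) =
        fun n => ((∫ x, F n x ∂ν : ℝ) : ℂ) := by
      funext n
      rw [hder n, smul_eq_mul, smul_eq_mul, ← integral_complex_ofReal, ← integral_const_mul,
        ← integral_const_mul]
      refine integral_congr_ae (Eventually.of_forall fun x => ?_)
      simp only [hFdef, hY]
      push_cast
      rw [one_mul, show ((-t : ℂ) - 1) = -(1 + t) by ring, mul_pow, neg_pow (1 + (t : ℂ)),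
        neg_pow (X x : ℂ)]
      have h6 : ((-1 : ℂ) ^ n) * (-1) ^ n = 1 := by rw [← mul_pow]; simp
      linear_combination ((n.factorial : ℂ)⁻¹ * (1 + (t : ℂ)) ^ n * (X x : ℂ) ^ n *
        Complex.exp (-(X x : ℂ))) * h6
    rw [h5] at h4
    exact_mod_cast h4
  refine ⟨by fun_prop, ?_⟩
  rw [hasFiniteIntegral_iff_ofReal (Eventually.of_forall fun x => (Real.exp_pos _).le)]
  have hexp : ∀ x, ENNReal.ofReal (Real.exp (t * X x)) = ∑' n, ENNReal.ofReal (F n x) := by
    intro x
    have h7 : HasSum (fun n => F n x) (Real.exp (t * X x)) := by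
      have h8 : HasSum (fun n : ℕ => ((1 + t) * X x) ^ n / n.factorial)
          (Real.exp ((1 + t) * X x)) := by
        rw [Real.exp_eq_exp_ℝ]
        exact NormedSpace.expSeries_div_hasSum_exp ((1 + t) * X x)
      have h9 := h8.mul_right (Real.exp (- X x))
      rw [← Real.exp_add] at h9
      have h10 : (1 + t) * X x + - X x = t * X x := by ring
      rw [h10] at h9
      exact h9
    rw [← h7.tsum_eq, ENNReal.ofReal_tsum_of_nonneg (fun n => hF0 n x) h7.summable]
  simp_rw [hexp]
  rw [lintegral_tsum fun n => ((hFi n).1.aemeasurable.ennreal_ofReal)]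
  have h11 : ∀ n, ∫⁻ x, ENNReal.ofReal (F n x) ∂ν = ENNReal.ofReal (∫ x, F n x ∂ν) := by
    intro n
    rw [ofReal_integral_eq_lintegral_ofReal (hFi n) (Eventually.of_forall fun x => hF0 n x)]
  simp_rw [h11]
  rw [← ENNReal.ofReal_tsum_of_nonneg (fun n => integral_nonneg fun x => hF0 n x) hsum]
  exact ENNReal.ofReal_lt_top

end Pool.Agent.K6.H7.PF
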