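import Pool.Agent.K6.H33.NM.Poly
import Pool.Agent.K6.H7.PF.Lan

set_option autoImplicit false

/-! # Roots of polynomials of functional equations to the left of `-1`

The Bernstein argument of `Pool.Agent.K6.H33.NM` works for all zeros `s₀ > -1 - lam` of the denominator
`D` if `D` has no zeros with real part `> -lam`, by Landau's lemma.
-/

namespace Pool.Agent.K6.H7.PF

open MeasureTheory Set Filter Topology MvPolynomial
open Pool.Agent.K6.H33.NM
open Pool.Agent.H628R4.TP (weylS IsBFunction)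

section Abs

variable {E : Type} [MeasurableSpace E]

theorem cpow_log_bound' (x : ℝ) (h0 : 0 < x) (h1 : x ≤ 1) (s : ℂ) (σ r : ℝ) (hr : 0 < r)
    (hs : σ + r ≤ s.re) : ‖(x : ℂ) ^ s * Complex.log x‖ ≤ x ^ σ * (1 / r) := by
  rw [norm_mul, Complex.norm_cpow_eq_rpow_re_of_pos h0, ← Complex.ofReal_log h0.le,
    Complex.norm_real]
  have h2 := Real.abs_log_mul_self_rpow_lt x r h0 h1 hr
  calc x ^ s.re * ‖Real.log x‖ ≤ x ^ (σ + r) * ‖Real.log x‖ := by
        apply mul_le_mul_of_nonneg_right _ (norm_nonneg _)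
        exact Real.rpow_le_rpow_of_exponent_ge h0 h1 hs
    _ = x ^ σ * |Real.log x * x ^ r| := by
        rw [abs_mul, abs_of_nonneg (Real.rpow_nonneg h0.le r), Real.norm_eq_abs,
          Real.rpow_add h0]
        ring
    _ ≤ _ := mul_le_mul_of_nonneg_left h2.le (Real.rpow_nonneg h0.le _)

theorem Phi_diff_ext (μ : Measure E) (g : E → ℝ) (hg : Measurable g) (φ : E → ℂ)
    (hφ : AEStronglyMeasurable φ μ) (hpos : ∀ᵐ x ∂μ, 0 < g x) (h1 : ∀ x, φ x ≠ 0 → g x ≤ 1)
    (lam : ℝ) (hint : ∀ σ : ℝ, -lam < σ → Integrable (fun x => g x ^ σ * ‖φ x‖) μ) (s : ℂ)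
    (hs : -lam < s.re) : DifferentiableAt ℂ (Phi μ g φ) s := by
  set r : ℝ := (s.re + lam) / 3 with hrdef
  have hr : 0 < r := by rw [hrdef]; linarith
  set σ : ℝ := s.re - 2 * r with hσdef
  have hσ : -lam < σ := by rw [hσdef, hrdef]; linarith
  have hre : ∀ z ∈ Metric.ball s r, σ + r ≤ z.re := by
    intro z hz
    rw [Metric.mem_ball, Complex.dist_eq] at hz
    have h2 := Complex.abs_re_le_norm (z - s)
    rw [Complex.sub_re] at h2
    have h3 := neg_abs_le (z.re - s.re)
    rw [hσdef]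
    linarith
  have key := hasDerivAt_integral_of_dominated_loc_of_deriv_le (μ := μ)
    (F := fun (z : ℂ) x => (g x : ℂ) ^ z * φ x)
    (F' := fun (z : ℂ) x => ((g x : ℂ) ^ z * Complex.log (g x)) * φ x) (x₀ := s)
    (s := Metric.ball s r) (bound := fun x => (1 / r) * (g x ^ σ * ‖φ x‖))
    (Metric.ball_mem_nhds _ hr)
    (Eventually.of_forall fun z => (meas_cpow μ g hg z).mul hφ)
    (by
      refine (hint s.re hs).mono' ((meas_cpow μ g hg s).mul hφ) ?_
      filter_upwards [hpos] with x hx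
      rw [norm_mul, Complex.norm_cpow_eq_rpow_re_of_pos hx])
    (((meas_cpow μ g hg s).mul
      (Complex.measurable_log.comp (Complex.measurable_ofReal.comp hg)).aestronglyMeasurable).mul hφ)
    (by
      filter_upwards [hpos] with x hx z hz
      by_cases h : φ x = 0
      · simp [h]
      · rw [norm_mul]
        calc ‖(g x : ℂ) ^ z * Complex.log (g x)‖ * ‖φ x‖ ≤ (g x ^ σ * (1 / r)) * ‖φ x‖ :=
              mul_le_mul_of_nonneg_right (cpow_log_bound' _ hx (h1 x h) z σ r hr (hre z hz))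
                (norm_nonneg _)
          _ = _ := by ring)
    ((hint σ hσ).const_mul _)
    (by
      filter_upwards [hpos] with x hx z hz
      have hx0 : (g x : ℂ) ≠ 0 := by exact_mod_cast hx.ne'
      have h2 := (hasDerivAt_id z).const_cpow (c := (g x : ℂ)) (Or.inl hx0)
      simp only [id, mul_one] at h2
      exact h2.mul_const _)
  exact key.2.differentiableAt

/-- Restriction to the set where `g` is positive. -/
theorem Phi_restrict (μ : Measure E) (g : E → ℝ) (hg : Measurable g) (h0 : ∀ x, 0 ≤ g x) (φ : E → ℂ)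
    (s : ℂ) (hs : 0 < s.re) : Phi (μ.restrict {x | 0 < g x}) g φ s = Phi μ g φ s := by
  unfold Phi
  refine setIntegral_eq_integral_of_forall_compl_eq_zero fun x hx => ?_
  have h1 : g x = 0 := le_antisymm (not_lt.1 hx) (h0 x)
  rw [h1, Complex.ofReal_zero, Complex.zero_cpow (by rintro rfl; simp at hs), zero_mul]

variable (μ : Measure E) (g : E → ℝ) (hg : Measurable g) (h0 : ∀ x, 0 ≤ g x)
  (φ : E → ℂ) (hφ : Integrable φ μ) (h1 : ∀ x, φ x ≠ 0 → g x ≤ 1)
  {ι : Type} (J : Finset ι) (ψ : ι → E → ℂ) (hψ : ∀ i, Integrable (ψ i) μ)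
  (h2 : ∀ i x, ψ i x ≠ 0 → g x ≤ 1) (β : Polynomial ℂ) (P : ι → Polynomial ℂ)
  (h : ∀ m : ℕ, 0 < m → β.eval (m : ℂ) * Phi μ g φ m =
    ∑ i ∈ J, (P i).eval (m : ℂ) * Phi μ g (ψ i) (m + 1))

include hg h0 hφ h1 hψ h2 h in
/-- **A zero of the denominator of the zeta function is a root of the polynomial `β` of the functional
equation**, also to the left of `-1`. -/
theorem root_abs_ext (D G : ℂ → ℂ) (hD : Differentiable ℂ D) (hG : Differentiable ℂ G)
    (hDG : ∀ s : ℝ, 0 < s → Phi μ g φ s * D s = G s) (lam : ℝ) (hlam : 0 < lam)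
    (hint : ∀ i, ∀ σ : ℝ, -lam < σ →
      Integrable (fun x => g x ^ σ * ‖ψ i x‖) (μ.restrict {x | 0 < g x}))
    (s₀ : ℝ) (hs₀ : -1 - lam < s₀) (hD0 : D s₀ = 0) (hG0 : G s₀ ≠ 0) : β.eval (s₀ : ℂ) = 0 := by
  have hcar := carl_eq μ g hg h0 φ hφ h1 J ψ hψ h2 β P h
  set μ' : Measure E := μ.restrict {x | 0 < g x} with hμ'
  have hpos : ∀ᵐ x ∂μ', 0 < g x :=
    ae_restrict_mem (measurableSet_lt measurable_const hg)
  set U : Set ℂ := {s : ℂ | -1 - lam < s.re} with hU
  have hUo : IsOpen U := isOpen_lt continuous_const Complex.continuous_re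
  have hUc : IsPreconnected U := (convex_halfSpace_re_gt (-1 - lam)).isPreconnected
  have hL : AnalyticOnNhd ℂ (fun s => β.eval s * G s) U :=
    DifferentiableOn.analyticOnNhd (β.differentiable.mul hG).differentiableOn hUo
  have hR : AnalyticOnNhd ℂ (fun s => (∑ i ∈ J, (P i).eval s * Phi μ' g (ψ i) (s + 1)) * D s) U := by
    refine DifferentiableOn.analyticOnNhd ?_ hUo
    intro w hw
    have hw' : -1 - lam < w.re := hw
    apply DifferentiableAt.differentiableWithinAt
    refine DifferentiableAt.mul ?_ hD.differentiableAt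
    apply DifferentiableAt.fun_sum
    intro i _
    refine (P i).differentiable.differentiableAt.mul ?_
    have h3 : DifferentiableAt ℂ (fun s : ℂ => s + 1) w := by fun_prop
    have h4 : -lam < (w + 1).re := by simp only [Complex.add_re, Complex.one_re]; linarith
    exact DifferentiableAt.comp (g := Phi μ' g (ψ i)) (f := fun s : ℂ => s + 1) w
      (Phi_diff_ext μ' g hg (ψ i) (hψ i).1.restrict hpos (h2 i) lam (hint i) (w + 1) h4) h3
  have hreal : ∀ s : ℝ, 0 < s → β.eval (s : ℂ) * G s =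
      (∑ i ∈ J, (P i).eval (s : ℂ) * Phi μ' g (ψ i) (s + 1)) * D s := by
    intro s hs
    rw [← hDG s hs, ← mul_assoc, hcar s (by simpa using hs)]
    congr 1
    refine Finset.sum_congr rfl fun i _ => ?_
    rw [hμ', Phi_restrict μ g hg h0 (ψ i) _ (by simp; linarith)]
  have hfreq : ∃ᶠ z in 𝓝[≠] (1 : ℂ), β.eval z * G z =
      (∑ i ∈ J, (P i).eval z * Phi μ' g (ψ i) (z + 1)) * D z := by
    have ht : Tendsto (fun x : ℝ => (x : ℂ)) (𝓝[>] (1 : ℝ)) (𝓝[≠] (1 : ℂ)) := by
      rw [tendsto_nhdsWithin_iff]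
      constructor
      · have := (Complex.continuous_ofReal.tendsto (1 : ℝ)).mono_left
          (nhdsWithin_le_nhds (s := Ioi (1 : ℝ)))
        simpa using this
      · filter_upwards [self_mem_nhdsWithin] with x hx
        have hx' : (1 : ℝ) < x := hx
        rw [mem_compl_iff, mem_singleton_iff]
        intro h3
        have := congrArg Complex.re h3
        simp at this
        linarith
    refine ht.frequently ?_
    apply Eventually.frequently
    filter_upwards [self_mem_nhdsWithin] with x hx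
    have hx' : (1 : ℝ) < x := hx
    exact hreal x (by linarith)
  have hEq := hL.eqOn_of_preconnected_of_frequently_eq hR hUc
    (show (1 : ℂ) ∈ U by rw [hU]; simp; linarith) hfreq
  have h5 := hEq (show (s₀ : ℂ) ∈ U by rw [hU]; simpa using hs₀)
  simp only [hD0, mul_zero] at h5
  exact (mul_eq_zero.1 h5).resolve_right hG0

end Abs

variable {V : Type} [Fintype V]

/-- Convergence of `∫ |f| ^ (2 σ)` over the ball for `σ > -lam`, by Landau's lemma. -/
theorem ball_conv (f : MvPolynomial V ℂ) (B : ℝ) (hB : 0 < B)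
    (hBf : ∀ x : V → ℂ, Nr x ≤ 1 → ‖eval x f‖ ^ 2 ≤ B) (D G : ℂ → ℂ) (hD : Differentiable ℂ D)
    (hG : Differentiable ℂ G) (h : ∀ s : ℝ, 0 < s →
      ((∫ x : V → ℂ, (‖eval x f‖ ^ 2) ^ s * rp x : ℝ) : ℂ) * D s = G s) (lam : ℝ) (hlam : 0 < lam)
    (hDl : ∀ s : ℂ, -lam < s.re → D s ≠ 0) (σ : ℝ) (hσ : -lam < σ) :
    Integrable (fun x : V → ℂ => (‖eval x f‖ ^ 2 / B) ^ σ * rp x)
      (volume.restrict {x : V → ℂ | 0 < ‖eval x f‖ ^ 2 / B}) := by
  set g : (V → ℂ) → ℝ := fun x => ‖eval x f‖ ^ 2 / B with hgdef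
  have hgc : Continuous g := (((MvPolynomial.continuous_eval f).norm).pow 2).div_const B
  have hg : Measurable g := hgc.measurable
  have h0 : ∀ x, 0 ≤ g x := fun x => by positivity
  have hg1 : ∀ x, rp x ≠ 0 → g x ≤ 1 := by
    intro x hx
    have h3 : Nr x ≤ 1 := by
      by_contra h4
      rw [not_le] at h4
      exact hx (max_eq_left (by linarith))
    rw [hgdef]
    simp only
    rw [div_le_one hB]
    exact hBf x h3
  have hrpm : Measurable (rp : (V → ℂ) → ℝ) := rp_cont.measurable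
  have hrpi : Integrable (rp : (V → ℂ) → ℝ) := by
    have h3 : Integrable fun x : V → ℂ => ((rp x : ℝ) : ℂ) :=
      int_ev _ (Complex.continuous_ofReal.comp rp_cont) fun x hx => by simp [hx]
    exact h3.re.congr (Filter.Eventually.of_forall fun x => Complex.ofReal_re _)
  set S : Set (V → ℂ) := {x | 0 < g x} with hS
  have hSm : MeasurableSet S := measurableSet_lt measurable_const hg
  set ν : Measure (V → ℂ) := (volume.restrict S).withDensity fun x => ENNReal.ofReal (rp x) with hν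
  haveI : IsFiniteMeasure ν := by
    rw [hν]
    apply isFiniteMeasure_withDensity
    have h3 : ∫⁻ x : V → ℂ in S, ENNReal.ofReal (rp x) ≤ ∫⁻ x : V → ℂ, ENNReal.ofReal (rp x) :=
      setLIntegral_le_lintegral S _
    have h4 : ∫⁻ x : V → ℂ, ENNReal.ofReal (rp x) ≠ ⊤ := by
      rw [← ofReal_integral_eq_lintegral_ofReal hrpi
        (Filter.Eventually.of_forall fun x => rp_nonneg x)]
      exact ENNReal.ofReal_ne_top
    exact ne_top_of_le_ne_top h4 h3
  set X : (V → ℂ) → ℝ := fun x => max 0 (-Real.log (g x)) with hXdef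
  have hX : Measurable X := by
    rw [hXdef]
    exact measurable_const.max (Real.measurable_log.comp hg).neg
  have hX0 : ∀ x, 0 ≤ X x := fun x => le_max_left _ _
  have hXe : ∀ (s : ℝ) (x : V → ℂ), x ∈ S → rp x * Real.exp (-s * X x) = g x ^ s * rp x := by
    intro s x hx
    have hx' : 0 < g x := hx
    by_cases hr : rp x = 0
    · rw [hr]; ring
    · have h3 : Real.log (g x) ≤ 0 := Real.log_nonpos (h0 x) (hg1 x hr)
      have h4 : X x = - Real.log (g x) := max_eq_right (by linarith)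
      rw [h4, Real.rpow_def_of_pos hx', mul_comm]
      congr 2
      ring
  have hBc : (B : ℂ) ≠ 0 := by exact_mod_cast hB.ne'
  have key := landau ν X hX hX0 (fun s => G s / D s * (B : ℂ) ^ (-s)) lam hlam ?_ ?_ (-σ)
    (by linarith)
  · -- back to the Lebesgue measure
    rw [hν, integrable_withDensity_iff hrpm.ennreal_ofReal
      (Eventually.of_forall fun x => ENNReal.ofReal_lt_top)] at key
    refine key.congr ?_
    filter_upwards [ae_restrict_mem hSm] with x hx
    rw [ENNReal.toReal_ofReal (rp_nonneg x), ← hXe σ x hx, mul_comm]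
  · intro s hs
    have hs' : -lam < s.re := by
      rw [Metric.mem_ball, Complex.dist_eq] at hs
      have h3 := Complex.abs_re_le_norm (s - 1)
      rw [Complex.sub_re, Complex.one_re] at h3
      have h4 := neg_abs_le (s.re - 1)
      linarith
    apply DifferentiableAt.differentiableWithinAt
    refine DifferentiableAt.mul (hG.differentiableAt.div hD.differentiableAt (hDl s hs')) ?_
    exact (differentiableAt_id.neg).const_cpow (Or.inl hBc)
  · intro s hs
    have h3 : ∫ x, Real.exp (-s * X x) ∂ν = ∫ x, g x ^ s * rp x := by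
      rw [hν, integral_withDensity_eq_integral_toReal_smul hrpm.ennreal_ofReal
        (Eventually.of_forall fun x => ENNReal.ofReal_lt_top)]
      have h4 : ∫ x in S, (ENNReal.ofReal (rp x)).toReal • Real.exp (-s * X x) =
          ∫ x in S, g x ^ s * rp x := by
        refine setIntegral_congr_fun hSm fun x hx => ?_
        rw [ENNReal.toReal_ofReal (rp_nonneg x), smul_eq_mul, hXe s x hx]
      rw [h4]
      refine setIntegral_eq_integral_of_forall_compl_eq_zero fun x hx => ?_
      have h5 : g x = 0 := le_antisymm (not_lt.1 hx) (h0 x)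
      rw [h5, Real.zero_rpow hs.ne', zero_mul]
    have hDs : D s ≠ 0 := hDl s (by simp; linarith)
    have h4 : (∫ x : V → ℂ, (‖eval x f‖ ^ 2) ^ s * rp x) = B ^ s * ∫ x, g x ^ s * rp x := by
      rw [← integral_const_mul]
      refine integral_congr_ae (Eventually.of_forall fun x => ?_)
      simp only
      have e3 : (‖eval x f‖ ^ 2) ^ s = g x ^ s * B ^ s := by
        rw [← Real.mul_rpow (h0 x) hB.le]
        congr 1
        rw [hgdef]
        simp only
        field_simp
      rw [e3]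
      ring
    have h5 := h s hs
    rw [h4, Complex.ofReal_mul, Complex.ofReal_cpow hB.le] at h5
    rw [h3, ← h5, Complex.cpow_neg]
    have hBs : (B : ℂ) ^ (s : ℂ) ≠ 0 := by
      rw [Complex.cpow_def_of_ne_zero hBc]
      exact Complex.exp_ne_zero _
    field_simp

/-- **The general theorem.** -/
theorem root_gen_ext (f : MvPolynomial V ℂ) (b : Polynomial ℂ) (hb : IsBFunction f b)
    (D : ℂ → ℂ) (hD : Differentiable ℂ D) (G : ℕ → ℂ → ℂ) (hG : ∀ k, Differentiable ℂ (G k))
    (h : ∀ k, 0 < k → ∀ s : ℝ, 0 < s →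
      ((∫ x : V → ℂ, (‖eval x f‖ ^ 2) ^ s * rp x ^ k : ℝ) : ℂ) * D s = G k s)
    (lam : ℝ) (hlam : 0 < lam) (hDl : ∀ s : ℂ, -lam < s.re → D s ≠ 0)
    (s₀ : ℝ) (hs₀ : -1 - lam < s₀) (hD0 : D s₀ = 0) (hG0 : ∃ k₀, ∀ k, k₀ ≤ k → G k s₀ ≠ 0) :
    b.eval (s₀ : ℂ) = 0 := by
  obtain ⟨r, hr⟩ := bernstein f b hb
  obtain ⟨k₀, hk₀⟩ := hG0
  obtain ⟨J, w, hw⟩ := hr (r + 1 + k₀) (by omega)
  set k := r + 1 + k₀ with hk
  obtain ⟨B, hB, hBf⟩ := poly_bdd f
  set g : (V → ℂ) → ℝ := fun x => ‖eval x f‖ ^ 2 / B with hgdef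
  have hg : Measurable g := by
    have : Continuous g := (((MvPolynomial.continuous_eval f).norm).pow 2).div_const B
    exact this.measurable
  have h0 : ∀ x, 0 ≤ g x := fun x => by positivity
  have hNr : ∀ x : V → ℂ, rp x ≠ 0 → Nr x ≤ 1 := by
    intro x hx
    by_contra h4
    rw [not_le] at h4
    exact hx (max_eq_left (by linarith))
  have hgen : ∀ (k : ℕ), 0 < k → ∀ (W : MvPolynomial (V ⊕ V) ℂ) (x : V → ℂ),
      ev2 W x * ((rp x ^ k : ℝ) : ℂ) ≠ 0 → g x ≤ 1 := by
    intro k hk W x hx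
    have h1 : rp x ≠ 0 := by
      intro h2
      apply hx
      rw [h2, zero_pow hk.ne']
      simp
    rw [hgdef]
    simp only
    rw [div_le_one hB]
    exact hBf x (hNr x h1)
  have hconv := ball_conv f B hB hBf D (G 1) hD (hG 1) (fun s hs => by
    have h3 := h 1 one_pos s hs
    simpa only [pow_one] using h3) lam hlam hDl
  have hint : ∀ j, ∀ σ : ℝ, -lam < σ →
      Integrable (fun x => g x ^ σ * ‖ev2 (w j) x * ((rp x ^ 1 : ℝ) : ℂ)‖)
        (volume.restrict {x | 0 < g x}) := by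
    intro j σ hσ
    have hK : IsCompact {x : V → ℂ | Nr x ≤ 1} := by
      apply Metric.isCompact_of_isClosed_isBounded (isClosed_le Nr_cont continuous_const)
      exact (Nr_bdd 2).subset fun x hx => by
        have : Nr x ≤ 1 := hx
        show Nr x < 2
        linarith
    obtain ⟨C, hC⟩ := hK.bddAbove_image (ev2_cont (w j)).norm.continuousOn
    have hC' : ∀ x : V → ℂ, Nr x ≤ 1 → ‖ev2 (w j) x‖ ≤ C := fun x hx => hC ⟨x, hx, rfl⟩
    refine ((hconv σ hσ).const_mul C).mono' ?_ ?_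
    · exact ((hg.pow_const σ).aestronglyMeasurable).mul (ev_rp_cont (w j) 1).norm.aestronglyMeasurable
    · refine Eventually.of_forall fun x => ?_
      have hgσ : 0 ≤ g x ^ σ := Real.rpow_nonneg (h0 x) σ
      rw [norm_mul, norm_norm, norm_mul, Complex.norm_real, pow_one, Real.norm_of_nonneg hgσ,
        Real.norm_of_nonneg (rp_nonneg x)]
      by_cases hx : rp x = 0
      · rw [hx]; simp
      · have h5 := hC' x (hNr x hx)
        calc g x ^ σ * (‖ev2 (w j) x‖ * rp x) = ‖ev2 (w j) x‖ * (g x ^ σ * rp x) := by ring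
          _ ≤ C * (g x ^ σ * rp x) :=
            mul_le_mul_of_nonneg_right h5 (mul_nonneg hgσ (rp_nonneg x))
  have key := root_abs_ext (volume : Measure (V → ℂ)) g hg h0
    (fun x => ev2 1 x * ((rp x ^ k : ℝ) : ℂ))
    (ev_rp_int 1 k (by omega)) (hgen k (by omega) 1) J
    (fun j x => ev2 (w j) x * ((rp x ^ 1 : ℝ) : ℂ)) (fun j => ev_rp_int (w j) 1 one_pos)
    (fun j x => hgen 1 one_pos (w j) x) (b * b.map (starRingEnd ℂ))
    (fun j => Polynomial.C (B : ℂ) * Polynomial.X ^ (j.1 + j.2)) ?_ D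
    (fun s => G k s * (B : ℂ) ^ (-s)) hD ?_ ?_ lam hlam hint s₀ hs₀ hD0 ?_
  · rw [Polynomial.eval_mul] at key
    rcases mul_eq_zero.1 key with h1 | h1
    · exact h1
    · have h2 : (b.map (starRingEnd ℂ)).eval ((starRingEnd ℂ) (s₀ : ℂ)) =
          (starRingEnd ℂ) (b.eval (s₀ : ℂ)) := by
        rw [Polynomial.eval_map, Polynomial.eval₂_at_apply]
      rw [Complex.conj_ofReal, h1] at h2
      have h3 := congrArg (starRingEnd ℂ) h2
      rw [Complex.conj_conj, map_zero] at h3
      exact h3.symm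
  · intro m hm
    have e1 := phi_Ik f B m k 1
    rw [e1, mul_one]
    have h2 : (b * b.map (starRingEnd ℂ)).eval (m : ℂ) =
        b.eval (m : ℂ) * (starRingEnd ℂ) (b.eval (m : ℂ)) := by
      rw [Polynomial.eval_mul]
      congr 1
      have h3 : (b.map (starRingEnd ℂ)).eval ((starRingEnd ℂ) (m : ℂ)) =
          (starRingEnd ℂ) (b.eval (m : ℂ)) := by
        rw [Polynomial.eval_map, Polynomial.eval₂_at_apply]
      rw [map_natCast] at h3
      exact h3
    rw [h2, mul_left_comm, hw m, Finset.mul_sum]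
    refine Finset.sum_congr rfl fun j _ => ?_
    have e2 := phi_Ik f B (m + 1) 1 (w j)
    have e3 : ((m : ℂ) + 1) = ((m + 1 : ℕ) : ℂ) := by push_cast; rfl
    rw [e3, e2, Polynomial.eval_mul, Polynomial.eval_C, Polynomial.eval_pow, Polynomial.eval_X]
    have hB0 : (B : ℂ) ≠ 0 := by exact_mod_cast hB.ne'
    rw [pow_succ ((B : ℂ)⁻¹)]
    field_simp
  · refine (hG k).mul ?_
    have hB0 : (B : ℂ) ≠ 0 := by exact_mod_cast hB.ne'
    exact fun s => (differentiableAt_id.neg).const_cpow (Or.inl hB0)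
  · intro s hs
    rw [← h k (by omega) s hs]
    have hBs : (B : ℂ) ^ (-(s : ℂ)) * (B : ℂ) ^ (s : ℂ) = 1 := by
      rw [← Complex.cpow_add _ _ (by exact_mod_cast hB.ne')]; simp
    have e1 : Phi (volume : Measure (V → ℂ)) g (fun x => ev2 1 x * ((rp x ^ k : ℝ) : ℂ)) (s : ℂ) *
        (B : ℂ) ^ (s : ℂ) = ((∫ x : V → ℂ, (‖eval x f‖ ^ 2) ^ s * rp x ^ k : ℝ) : ℂ) := by
      unfold Phi
      rw [← integral_mul_const, ← integral_complex_ofReal]
      refine integral_congr_ae (Eventually.of_forall fun x => ?_)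
      simp only
      have e2 : ev2 (1 : MvPolynomial (V ⊕ V) ℂ) x = 1 := by simp [ev2]
      rw [e2, one_mul, ← Complex.ofReal_cpow (h0 x), ← Complex.ofReal_cpow hB.le, ← Complex.ofReal_mul,
        ← Complex.ofReal_mul]
      congr 1
      have e3 : (‖eval x f‖ ^ 2) ^ s = g x ^ s * B ^ s := by
        rw [← Real.mul_rpow (h0 x) hB.le]
        congr 1
        rw [hgdef]
        simp only
        field_simp
      rw [e3]
      ring
    rw [← e1]
    linear_combination (-(Phi (volume : Measure (V → ℂ)) g (fun x => ev2 1 x * ((rp x ^ k : ℝ) : ℂ))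
      (s : ℂ) * D s)) * hBs
  · apply mul_ne_zero (hk₀ k (by omega))
    rw [Complex.cpow_def_of_ne_zero (by exact_mod_cast hB.ne')]
    exact Complex.exp_ne_zero _

/-- **Roots of the polynomials of functional equations of a homogeneous polynomial from its Gaussian
integral**: all zeros of `D` in `(-1 - lam, ∞)`, if `D` has no zero with real part `> -lam`. -/
theorem root_hom_ext {ι : Type} [Fintype ι] [Nonempty ι] (f : MvPolynomial ι ℂ) (d : ℕ)
    (hd : ∀ (c : ℝ) (x : ι → ℂ), eval (c • x) f = (c : ℂ) ^ d * eval x f)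
    (b : Polynomial ℂ) (hb : Pool.Agent.H628R4.TP.IsBFunction f b)
    (E : ℝ → ℝ) (hE : ∀ σ, 0 < σ → 0 ≤ E σ) (hG : ∀ σ : ℝ, 0 < σ →
      ∫⁻ x, ENNReal.ofReal ((‖eval x f‖ ^ 2) ^ σ) ∂(Measure.pi fun _ : ι => gm) =
        ENNReal.ofReal (E σ)) (D : ℂ → ℂ) (hD : Differentiable ℂ D)
    (hDE : ∀ σ : ℝ, 0 < σ → D σ * (E σ : ℂ) = 1) (lam : ℝ) (hlam : 0 < lam)
    (hDl : ∀ s : ℂ, -lam < s.re → D s ≠ 0) (s₀ : ℝ) (hs₀ : -1 - lam < s₀) (hD0 : D s₀ = 0) :
    b.eval (s₀ : ℂ) = 0 := by
  refine root_gen_ext f b hb D hD (fun k s => ((k.factorial * Real.pi ^ Fintype.card ι : ℝ) : ℂ) *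
    (Complex.Gamma ((Fintype.card ι : ℂ) + d * s + k + 1))⁻¹) ?_ ?_ lam hlam hDl s₀ hs₀ hD0 ?_
  · intro k
    refine (differentiable_const _).mul ?_
    exact Complex.differentiable_one_div_Gamma.comp
      (by fun_prop : Differentiable ℂ fun s : ℂ => (Fintype.card ι : ℂ) + d * s + k + 1)
  · intro k hk s hs
    have h1 := gauss_ball f d hd s hs.le (E s) (hE s hs) (hG s hs) k hk
    have hG2 : (Real.Gamma ((Fintype.card ι : ℝ) + d * s + k + 1) : ℂ) ≠ 0 := by
      exact_mod_cast (Real.Gamma_pos_of_pos (by positivity)).ne'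
    have h2 := congrArg (fun x : ℝ => (x : ℂ)) h1
    simp only [Complex.ofReal_mul] at h2
    have h3 : Complex.Gamma ((Fintype.card ι : ℂ) + d * (s : ℂ) + k + 1) =
        (Real.Gamma ((Fintype.card ι : ℝ) + d * s + k + 1) : ℂ) := by
      rw [← Complex.Gamma_ofReal]; push_cast; rfl
    have h4 := hDE s hs
    rw [h3, Complex.ofReal_mul]
    field_simp
    rw [mul_right_comm, h2]
    linear_combination ((k.factorial : ℝ) : ℂ) * ((Real.pi ^ Fintype.card ι : ℝ) : ℂ) * h4
  · obtain ⟨k₀, hk₀⟩ := exists_nat_ge (-(d : ℝ) * s₀)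
    refine ⟨k₀, fun k hk => ?_⟩
    have hk' : (k₀ : ℝ) ≤ k := by exact_mod_cast hk
    apply mul_ne_zero
    · exact_mod_cast (by positivity : (0 : ℝ) < k.factorial * Real.pi ^ Fintype.card ι).ne'
    · apply inv_ne_zero
      have h3 : Complex.Gamma ((Fintype.card ι : ℂ) + d * (s₀ : ℂ) + k + 1) =
          (Real.Gamma ((Fintype.card ι : ℝ) + d * s₀ + k + 1) : ℂ) := by
        rw [← Complex.Gamma_ofReal]; push_cast; rfl
      rw [h3]
      have h5 : 0 < (Fintype.card ι : ℝ) + d * s₀ + k + 1 := by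
        have : (0 : ℝ) ≤ Fintype.card ι := Nat.cast_nonneg _
        linarith
      exact_mod_cast (Real.Gamma_pos_of_pos h5).ne'

end Pool.Agent.K6.H7.PF
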